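import Mathlib

/-! Definitions for MP_ffb813_an.NullSymbol: the Hardy space `H^2` of the unit disc, given by
the square summable sequences of Taylor coefficients, and its operators. -/

set_option autoImplicit false

namespace Pool.Agent.Lib.MP_ffb813_an_h7

open Filter Topology Metric

/-- The Hardy space `H^2` of the unit disc: the Hilbert space of square summable sequences,
read as sequences of Taylor coefficients. -/
def Hardy : Type := lp (fun _ : ℕ => ℂ) 2

noncomputable instance instNACG : NormedAddCommGroup Hardy :=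
  (inferInstance : NormedAddCommGroup (lp (fun _ : ℕ => ℂ) 2))

noncomputable instance instIPS : InnerProductSpace ℂ Hardy :=
  (inferInstance : InnerProductSpace ℂ (lp (fun _ : ℕ => ℂ) 2))

instance instComplete : CompleteSpace Hardy :=
  (inferInstance : CompleteSpace (lp (fun _ : ℕ => ℂ) 2))

/-- The `n`-th Taylor coefficient of `f`. -/
def coeff (f : Hardy) (n : ℕ) : ℂ := (f : lp (fun _ : ℕ => ℂ) 2).val n

/-- The value `f(z) = ∑ f_n z ^ n`. -/
noncomputable def valueAt (f : Hardy) (z : ℂ) : ℂ := ∑' n : ℕ, coeff f n * z ^ n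

/-- `M` is multiplication by `z` on `H^2`. -/
def IsMulZ (M : Hardy →L[ℂ] Hardy) : Prop :=
  ∀ f : Hardy, ∀ z ∈ ball (0 : ℂ) 1, valueAt (M f) z = z * valueAt f z

/-- `C` is the composition operator with symbol `φ` on `H^2`. -/
def IsCompOp (φ : ℂ → ℂ) (C : Hardy →L[ℂ] Hardy) : Prop :=
  ∀ f : Hardy, ∀ z ∈ ball (0 : ℂ) 1, valueAt (C f) z = valueAt f (φ z)

/-- The adjoint of an operator on `H^2`. -/
noncomputable def adj (M : Hardy →L[ℂ] Hardy) : Hardy →L[ℂ] Hardy :=
  ContinuousLinearMap.adjoint M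

/-- `M^{*n} C M^n → A` in the weak operator topology as `n → ∞`. -/
def WeakLim (M C A : Hardy →L[ℂ] Hardy) : Prop :=
  ∀ f g : Hardy, Tendsto (fun n : ℕ => inner ℂ g ((adj M)^[n] (C (M^[n] f)))) atTop
    (𝓝 (inner ℂ g (A f)))

/-- `φ` is the identity of the disc. -/
def IsIdentity (φ : ℂ → ℂ) : Prop := ∀ z ∈ ball (0 : ℂ) 1, φ z = z

/-- `φ` is a rotation `z ↦ c z` of the disc, `|c| = 1`, `c ≠ 1`. -/
def IsRotation (φ : ℂ → ℂ) : Prop :=
  ∃ c : ℂ, ‖c‖ = 1 ∧ c ≠ 1 ∧ ∀ z ∈ ball (0 : ℂ) 1, φ z = c * z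

end Pool.Agent.Lib.MP_ffb813_an_h7
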