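import Pool.Agent.Lib.MP_ffb813_an_h7.Comp
import Pool.Agent.Lib.MP_ffb813_an_h7.Defs
import Pool.Agent.Lib.MP_ffb813_an.Final

/-! The main theorem in the form of the hand-in (MP_ffb813_an). -/

set_option autoImplicit false

namespace Pool.Agent.Lib.MP_ffb813_an_h7

open Filter Topology Metric

lemma pow_apply_iterate (T : H2 →L[ℂ] H2) (n : ℕ) (f : H2) : (T ^ n) f = T^[n] f := by
  induction n with
  | zero => simp
  | succ n ih => rw [pow_succ', _root_.mul_apply_eq_comp, ih, Function.iterate_succ_apply']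

lemma weakLimit_iff (C A : H2 →L[ℂ] H2) : WeakLimit C A ↔ ∀ f g : H2, Tendsto
    (fun n : ℕ => inner ℂ g ((ContinuousLinearMap.adjoint Mz)^[n] (C (Mz^[n] f))))
    atTop (𝓝 (inner ℂ g (A f))) := by
  unfold WeakLimit
  simp only [_root_.mul_apply_eq_comp, pow_apply_iterate]

lemma existsUnique_Mz : ∃! M : H2 →L[ℂ] H2, ∀ f : H2, ∀ z ∈ ball (0 : ℂ) 1,
    value (M f) z = z * value f z := by
  refine ⟨Mz, fun f z hz => value_Mz f (mem_U hz), fun M hM => ?_⟩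
  ext1 f
  refine ext_value fun z hz => ?_
  rw [hM f z hz]
  exact (value_Mz f (mem_U hz)).symm

theorem main_comp {φ : ℂ → ℂ} (hφ : DifferentiableOn ℂ φ (ball (0 : ℂ) 1))
    (hm : Set.MapsTo φ (ball (0 : ℂ) 1) (ball (0 : ℂ) 1)) {C : H2 →L[ℂ] H2} (hC : IsComp φ C) :
    (WeakLimit C 0 ↔ ¬ IsIdentity φ ∧ ¬ IsRotation φ) ∧
      ((∃ A : H2 →L[ℂ] H2, WeakLimit C A) ↔ ¬ IsRotation φ) := by
  have hmain : ¬ IsIdentity φ ∧ ¬ IsRotation φ → WeakLimit C 0 := by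
    rintro ⟨hid, hrot⟩ f g
    have hr : ¬ ∃ c : ℂ, ‖c‖ = 1 ∧ ∀ z ∈ ball (0 : ℂ) 1, φ z = c * z := by
      rintro ⟨c, hc, hcz⟩
      by_cases h1 : c = 1
      · exact hid fun z hz => by rw [hcz z hz, h1, one_mul]
      · exact hrot ⟨c, hc, h1, hcz⟩
    rw [_root_.zero_apply, inner_zero_right]
    refine weak_of_entries (fun j k => ?_) f g
    refine (Pool.Agent.Lib.MP_ffb813_an.main hφ hm hr j k).congr fun n => ?_
    exact (comp_entry hC (n + j) (n + k)).symm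
  refine ⟨⟨fun h => ⟨fun hid => not_null_id hC hid h, ?_⟩, hmain⟩, ?_, fun hrot => ?_⟩
  · rintro ⟨c, hc, hc1, hcz⟩
    exact not_WAT_rotation hC hc hc1 hcz 0 h
  · rintro ⟨A, hA⟩ ⟨c, hc, hc1, hcz⟩
    exact not_WAT_rotation hC hc hc1 hcz A hA
  · by_cases hid : IsIdentity φ
    · exact ⟨1, weakLimit_id hC hid⟩
    · exact ⟨0, hmain ⟨hid, hrot⟩⟩

theorem main_H2 {φ : ℂ → ℂ} (hφ : DifferentiableOn ℂ φ (ball (0 : ℂ) 1))
    (hm : Set.MapsTo φ (ball (0 : ℂ) 1) (ball (0 : ℂ) 1)) (M C : H2 →L[ℂ] H2)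
    (hM : ∀ f : H2, ∀ z ∈ ball (0 : ℂ) 1, value (M f) z = z * value f z) (hC : IsComp φ C) :
    ((∀ f g : H2, Tendsto
      (fun n : ℕ => inner ℂ g ((ContinuousLinearMap.adjoint M)^[n] (C (M^[n] f))))
      atTop (𝓝 (inner ℂ g ((0 : H2 →L[ℂ] H2) f)))) ↔ ¬ IsIdentity φ ∧ ¬ IsRotation φ) ∧
    ((∃ A : H2 →L[ℂ] H2, ∀ f g : H2, Tendsto
      (fun n : ℕ => inner ℂ g ((ContinuousLinearMap.adjoint M)^[n] (C (M^[n] f))))
      atTop (𝓝 (inner ℂ g (A f)))) ↔ ¬ IsRotation φ) := by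
  have hMz : M = Mz := existsUnique_Mz.unique hM fun f z hz => value_Mz f (mem_U hz)
  rw [hMz]
  have h := main_comp hφ hm hC
  simp only [weakLimit_iff] at h
  exact h

end Pool.Agent.Lib.MP_ffb813_an_h7
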