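import Pool.Agent.Lib.MP_ffb813_an_h7.Littlewood

/-! Composition operators on `H^2` exist and are unique; the rotations (MP_ffb813_an). -/

set_option autoImplicit false

namespace Pool.Agent.Lib.MP_ffb813_an_h7

open Filter Topology Metric Real

lemma mem_U {w : ℂ} (h : w ∈ ball (0 : ℂ) 1) : ‖w‖ < 1 := by simpa using h

lemma exists_comp_value {φ : ℂ → ℂ} (hφ : DifferentiableOn ℂ φ (ball (0 : ℂ) 1))
    (hm : Set.MapsTo φ (ball (0 : ℂ) 1) (ball (0 : ℂ) 1)) (f : H2) :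
    ∃ c : H2, ‖c‖ ≤ (1 - ‖φ 0‖)⁻¹ * ‖f‖ ∧
      ∀ z ∈ ball (0 : ℂ) 1, value c z = value f (φ z) := by
  have h00 : (0 : ℂ) ∈ ball (0 : ℂ) 1 := by simp
  have hlt : ‖φ 0‖ < 1 := mem_U (hm h00)
  have hK : 0 ≤ (1 - ‖φ 0‖)⁻¹ * ‖f‖ := by
    have : 0 < 1 - ‖φ 0‖ := by linarith
    positivity
  have hg : DifferentiableOn ℂ (fun z => value f (φ z)) (ball (0 : ℂ) 1) :=
    (differentiableOn_value f).comp hφ hm
  have hF : DifferentiableOn ℂ (fun z => FF f (φ z)) (ball (0 : ℂ) 1) :=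
    (differentiableOn_FF f).comp hφ hm
  refine exists_H2 hg hK fun r h0 h1 => ?_
  have hsub : sphere (0 : ℂ) r ⊆ ball (0 : ℂ) 1 :=
    (sphere_subset_closedBall).trans (closedBall_subset_ball h1)
  have hFc : ContinuousOn (fun z => FF f (φ z)) (sphere (0 : ℂ) r) := hF.continuousOn.mono hsub
  have hgc : ContinuousOn (fun z => value f (φ z)) (sphere (0 : ℂ) r) := hg.continuousOn.mono hsub
  have hci : CircleIntegrable (fun z => FF f (φ z)) 0 r := hFc.circleIntegrable h0.le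
  have e1 := ContinuousLinearMap.circleAverage_comp_comm Complex.reCLM hci
  have hdc : DiffContOnCl ℂ (fun z => FF f (φ z)) (ball (0 : ℂ) |r|) := by
    rw [abs_of_pos h0]
    refine (hF.mono ?_).diffContOnCl
    rw [closure_ball _ h0.ne']
    exact closedBall_subset_ball h1
  rw [hdc.circleAverage] at e1
  have hrc : ContinuousOn (Complex.reCLM ∘ fun z => FF f (φ z)) (sphere (0 : ℂ) r) :=
    Complex.reCLM.continuous.comp_continuousOn hFc
  calc circleAverage (fun z => ‖value f (φ z)‖ ^ 2) 0 r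
      ≤ circleAverage (Complex.reCLM ∘ fun z => FF f (φ z)) 0 r := by
        refine circleAverage_mono (((hgc.norm).pow 2).circleIntegrable h0.le)
          (hrc.circleIntegrable h0.le) fun z hz => ?_
        rw [abs_of_pos h0] at hz
        exact normSq_value_le f (mem_U (hm (hsub hz)))
    _ = (FF f (φ 0)).re := e1
    _ ≤ ((1 - ‖φ 0‖)⁻¹ * ‖f‖) ^ 2 := re_FF_le f hlt

lemma value_add (f g : H2) {z : ℂ} (hz : ‖z‖ < 1) : value (f + g) z = value f z + value g z := by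
  have h := (hasSum_value f hz).add (hasSum_value g hz)
  have h2 : (fun n : ℕ => f n * z ^ n + g n * z ^ n) = fun n : ℕ => (f + g : H2) n * z ^ n := by
    funext n
    rw [lp.coeFn_add, Pi.add_apply]
    ring
  rw [h2] at h
  exact h.tsum_eq

lemma value_smul (c : ℂ) (f : H2) {z : ℂ} (hz : ‖z‖ < 1) : value (c • f) z = c * value f z := by
  have h := (hasSum_value f hz).mul_left c
  have h2 : (fun n : ℕ => c * (f n * z ^ n)) = fun n : ℕ => (c • f : H2) n * z ^ n := by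
    funext n
    rw [lp.coeFn_smul, Pi.smul_apply, smul_eq_mul]
    ring
  rw [h2] at h
  exact h.tsum_eq

/-- Littlewood: every analytic selfmap of the disc has exactly one (bounded) composition operator
on `H^2`. -/
theorem existsUnique_comp {φ : ℂ → ℂ} (hφ : DifferentiableOn ℂ φ (ball (0 : ℂ) 1))
    (hm : Set.MapsTo φ (ball (0 : ℂ) 1) (ball (0 : ℂ) 1)) :
    ∃! C : H2 →L[ℂ] H2, IsComp φ C := by
  choose c hc1 hc2 using exists_comp_value hφ hm
  have hadd : ∀ f g : H2, c (f + g) = c f + c g := by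
    intro f g
    refine ext_value fun z hz => ?_
    rw [value_add _ _ (mem_U hz), hc2 _ z hz, hc2 _ z hz, hc2 _ z hz,
      value_add _ _ (mem_U (hm hz))]
  have hsmul : ∀ (a : ℂ) (f : H2), c (a • f) = a • c f := by
    intro a f
    refine ext_value fun z hz => ?_
    rw [value_smul _ _ (mem_U hz), hc2 _ z hz, hc2 _ z hz, value_smul _ _ (mem_U (hm hz))]
  refine ⟨LinearMap.mkContinuous
    { toFun := c, map_add' := hadd, map_smul' := hsmul } ((1 - ‖φ 0‖)⁻¹) (fun f => hc1 f), ?_, ?_⟩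
  · intro f z hz
    exact hc2 f z hz
  · intro D hD
    ext1 f
    refine ext_value fun z hz => ?_
    rw [hD f z hz]
    exact (hc2 f z hz).symm

/-- `M_z^{*n} C M_z^n → A` in the weak operator topology. -/
def WeakLimit (C A : H2 →L[ℂ] H2) : Prop :=
  ∀ f g : H2, Tendsto
    (fun n : ℕ => inner ℂ g (((ContinuousLinearMap.adjoint Mz) ^ n * C * Mz ^ n) f))
    atTop (𝓝 (inner ℂ g (A f)))

lemma entry_zero {φ : ℂ → ℂ} {C : H2 →L[ℂ] H2} (hC : IsComp φ C) {c : ℂ}
    (h : ∀ z ∈ ball (0 : ℂ) 1, φ z = c * z) (n : ℕ) :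
    inner ℂ (mono 0) (AA C n (mono 0)) = c ^ n := by
  rw [inner_AA, Mz_pow_mono, inner_mono_left, add_zero]
  have h1 : C (mono n) = c ^ n • mono n := by
    refine ext_value fun z hz => ?_
    rw [hC _ z hz, value_smul _ _ (mem_U hz), value_mono, value_mono, h z hz, mul_pow]
  rw [h1, lp.coeFn_smul, Pi.smul_apply, mono_apply, if_pos rfl, smul_eq_mul, mul_one]

lemma comp_id {φ : ℂ → ℂ} {C : H2 →L[ℂ] H2} (hC : IsComp φ C)
    (h : ∀ z ∈ ball (0 : ℂ) 1, φ z = z) : C = 1 := by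
  ext1 f
  refine ext_value fun z hz => ?_
  rw [hC f z hz, h z hz]
  rfl

lemma inner_Mz_pow (n : ℕ) (f g : H2) : inner ℂ ((Mz ^ n) g) ((Mz ^ n) f) = inner ℂ g f := by
  induction n with
  | zero => simp
  | succ n ih =>
    rw [pow_succ', _root_.mul_apply_eq_comp, _root_.mul_apply_eq_comp]
    exact (MzI.inner_map_map _ _).trans ih

lemma weakLimit_id {φ : ℂ → ℂ} {C : H2 →L[ℂ] H2} (hC : IsComp φ C)
    (h : ∀ z ∈ ball (0 : ℂ) 1, φ z = z) : WeakLimit C 1 := by
  intro f g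
  have h1 : ∀ n : ℕ, inner ℂ g (AA C n f) = inner ℂ g ((1 : H2 →L[ℂ] H2) f) := by
    intro n
    rw [inner_AA, comp_id hC h]
    exact inner_Mz_pow n f g
  exact (tendsto_const_nhds).congr fun n => (h1 n).symm

lemma not_WAT_rotation {φ : ℂ → ℂ} {C : H2 →L[ℂ] H2} (hC : IsComp φ C) {c : ℂ}
    (hc : ‖c‖ = 1) (hc1 : c ≠ 1) (h : ∀ z ∈ ball (0 : ℂ) 1, φ z = c * z)
    (A : H2 →L[ℂ] H2) : ¬ WeakLimit C A := by
  intro hA
  have h1 : Tendsto (fun n : ℕ => c ^ n) atTop (𝓝 (inner ℂ (mono 0) (A (mono 0)))) :=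
    (hA (mono 0) (mono 0)).congr fun n => entry_zero hC h n
  have h2 := (h1.comp (tendsto_add_atTop_nat 1)).sub h1
  rw [sub_self] at h2
  have h3 : Tendsto (fun n : ℕ => ‖c - 1‖) atTop (𝓝 0) := by
    have h4 := h2.norm
    rw [norm_zero] at h4
    refine h4.congr fun n => ?_
    have h5 : ((fun n : ℕ => c ^ n) ∘ fun n : ℕ => n + 1) n - c ^ n = c ^ n * (c - 1) := by
      simp only [Function.comp_apply, pow_succ]
      ring
    rw [h5, norm_mul, norm_pow, hc, one_pow, one_mul]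
  have h6 := tendsto_nhds_unique h3 tendsto_const_nhds
  exact hc1 (sub_eq_zero.1 (norm_eq_zero.1 h6.symm))

lemma not_null_id {φ : ℂ → ℂ} {C : H2 →L[ℂ] H2} (hC : IsComp φ C)
    (h : ∀ z ∈ ball (0 : ℂ) 1, φ z = z) : ¬ WeakLimit C 0 := by
  intro hA
  have h' : ∀ z ∈ ball (0 : ℂ) 1, φ z = 1 * z := fun z hz => by rw [h z hz, one_mul]
  have h1 : Tendsto (fun n : ℕ => (1 : ℂ) ^ n) atTop
      (𝓝 (inner ℂ (mono 0) ((0 : H2 →L[ℂ] H2) (mono 0)))) :=
    (hA (mono 0) (mono 0)).congr fun n => entry_zero hC h' n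
  simp only [one_pow, _root_.zero_apply, inner_zero_right] at h1
  have h2 := tendsto_nhds_unique h1 tendsto_const_nhds
  exact one_ne_zero h2.symm

end Pool.Agent.Lib.MP_ffb813_an_h7
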