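import Pool.Agent.Lib.MP_ffb813_an_h7.Majorant

/-! Existence of the composition operators on `H^2` (MP_ffb813_an). -/

set_option autoImplicit false

namespace Pool.Agent.Lib.MP_ffb813_an_h7

open Filter Topology Metric Real

lemma circInt {h : ℂ → ℂ} {r : ℝ} (h0 : 0 < r) (hh : ContinuousOn h (sphere (0 : ℂ) r)) :
    CircleIntegrable h 0 r := hh.circleIntegrable h0.le

lemma avg_conj_pow {g : ℂ → ℂ} (hg : DifferentiableOn ℂ g (ball (0 : ℂ) 1)) {r : ℝ}
    (h0 : 0 < r) (h1 : r < 1) (n : ℕ) :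
    circleAverage (fun z => (starRingEnd ℂ) z ^ n * g z) 0 r =
      (r : ℂ) ^ (2 * n) * (iteratedDeriv n g 0 / (n.factorial : ℂ)) := by
  have hd : DifferentiableOn ℂ g (closedBall 0 r) := hg.mono (closedBall_subset_ball h1)
  have hc := hd.circleIntegral_one_div_sub_center_pow_smul h0 n
  have e1 : circleAverage (fun z => (starRingEnd ℂ) z ^ n * g z) 0 r =
      circleAverage (fun z => (r : ℂ) ^ (2 * n) • ((z ^ n)⁻¹ * g z)) 0 r := by
    refine circleAverage_congr_sphere fun z hz => ?_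
    rw [abs_of_pos h0, mem_sphere_zero_iff_norm] at hz
    have hz0 : z ≠ 0 := by
      intro h
      rw [h, norm_zero] at hz
      exact h0.ne hz
    have h2 : (starRingEnd ℂ) z * z = (r : ℂ) ^ 2 := by
      rw [mul_comm, Complex.mul_conj, Complex.normSq_eq_norm_sq, hz]
      norm_cast
    have h3 : (starRingEnd ℂ) z ^ n * z ^ n = (r : ℂ) ^ (2 * n) := by
      rw [← mul_pow, h2, ← pow_mul]
    simp only [smul_eq_mul]
    rw [← h3]
    field_simp
  rw [e1, circleAverage_fun_smul, circleAverage_eq_circleIntegral h0.ne']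
  have e2 : (∮ z in C((0 : ℂ), r), (z - 0)⁻¹ • ((z ^ n)⁻¹ * g z)) =
      ∮ z in C((0 : ℂ), r), (1 / (z - 0) ^ (n + 1)) • g z := by
    congr 1
    funext z
    simp only [sub_zero, smul_eq_mul, pow_succ]
    rw [one_div, mul_inv]
    ring
  rw [e2, hc, smul_eq_mul, smul_eq_mul, smul_eq_mul]
  have hpi : (2 * (π : ℂ) * Complex.I) ≠ 0 := by
    simp [Real.pi_ne_zero]
  field_simp

lemma avg_conj_poly {g : ℂ → ℂ} (hg : DifferentiableOn ℂ g (ball (0 : ℂ) 1)) {r : ℝ}
    (h0 : 0 < r) (h1 : r < 1) (a : ℕ → ℂ) (N : ℕ) :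
    circleAverage (fun z => (starRingEnd ℂ) (∑ n ∈ Finset.range N, a n * z ^ n) * g z) 0 r =
      ∑ n ∈ Finset.range N, (starRingEnd ℂ) (a n) *
        ((r : ℂ) ^ (2 * n) * (iteratedDeriv n g 0 / (n.factorial : ℂ))) := by
  have e1 : (fun z : ℂ => (starRingEnd ℂ) (∑ n ∈ Finset.range N, a n * z ^ n) * g z) =
      fun z => ∑ n ∈ Finset.range N, (starRingEnd ℂ) (a n) • ((starRingEnd ℂ) z ^ n * g z) := by
    funext z
    rw [map_sum, Finset.sum_mul]
    refine Finset.sum_congr rfl fun n _ => ?_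
    rw [map_mul, map_pow, smul_eq_mul]
    ring
  have hgc : ContinuousOn g (sphere (0 : ℂ) r) :=
    hg.continuousOn.mono ((sphere_subset_closedBall).trans (closedBall_subset_ball h1))
  have hci : ∀ n : ℕ, CircleIntegrable (fun z : ℂ => (starRingEnd ℂ) (a n) •
      ((starRingEnd ℂ) z ^ n * g z)) 0 r := by
    intro n
    have hcc : Continuous fun z : ℂ => (starRingEnd ℂ) z ^ n := by fun_prop
    have hc1 : ContinuousOn (fun z : ℂ => (starRingEnd ℂ) (a n) •
      ((starRingEnd ℂ) z ^ n * g z)) (sphere (0 : ℂ) r) :=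
      (hcc.continuousOn.mul hgc).const_smul ((starRingEnd ℂ) (a n))
    exact circInt h0 hc1
  rw [e1, circleAverage_fun_sum (fun n _ => hci n)]
  refine Finset.sum_congr rfl fun n _ => ?_
  rw [circleAverage_fun_smul, avg_conj_pow hg h0 h1 n, smul_eq_mul]

lemma coeff_poly (a : ℕ → ℂ) (N : ℕ) {n : ℕ} (hn : n < N) :
    iteratedDeriv n (fun z : ℂ => ∑ n ∈ Finset.range N, a n * z ^ n) 0 / (n.factorial : ℂ) =
      a n := by
  have hp : ∀ n : ℕ, (∑ m ∈ Finset.range N, a m • mono m : H2) n = if n < N then a n else 0 := by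
    intro n
    rw [lp.coeFn_sum, Finset.sum_apply]
    simp only [lp.coeFn_smul, Pi.smul_apply, mono_apply, smul_eq_mul, mul_ite, mul_one, mul_zero]
    rw [Finset.sum_ite_eq]
    simp only [Finset.mem_range]
  have hv : ∀ z : ℂ, value (∑ m ∈ Finset.range N, a m • mono m : H2) z =
      ∑ n ∈ Finset.range N, a n * z ^ n := by
    intro z
    unfold value
    rw [tsum_eq_sum (s := Finset.range N)]
    · refine Finset.sum_congr rfl fun m hm => ?_
      rw [hp, if_pos (Finset.mem_range.1 hm)]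
    · intro m hm
      rw [hp, if_neg (by simpa using hm), zero_mul]
  rw [← coeff_eq _ (fun z _ => hv z) n, hp, if_pos hn]

/-- Bessel's inequality on the circle of radius `r`. -/
lemma bessel {g : ℂ → ℂ} (hg : DifferentiableOn ℂ g (ball (0 : ℂ) 1)) {r : ℝ}
    (h0 : 0 < r) (h1 : r < 1) (N : ℕ) :
    ∑ n ∈ Finset.range N, ‖iteratedDeriv n g 0 / (n.factorial : ℂ)‖ ^ 2 * r ^ (2 * n) ≤
      circleAverage (fun z => ‖g z‖ ^ 2) 0 r := by
  set a : ℕ → ℂ := fun n => iteratedDeriv n g 0 / (n.factorial : ℂ) with ha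
  set P : ℂ → ℂ := fun z => ∑ n ∈ Finset.range N, a n * z ^ n with hP
  have hPd : Differentiable ℂ P := by
    rw [hP]
    fun_prop
  have hgc : ContinuousOn g (sphere (0 : ℂ) r) :=
    hg.continuousOn.mono ((sphere_subset_closedBall).trans (closedBall_subset_ball h1))
  have hPc : Continuous P := hPd.continuous
  have hcP : Continuous fun z : ℂ => (starRingEnd ℂ) (P z) := by fun_prop
  have e1 := avg_conj_poly hg h0 h1 a N
  have e2 := avg_conj_poly (hPd.differentiableOn (s := ball (0 : ℂ) 1)) h0 h1 a N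
  have e3 : ∑ n ∈ Finset.range N, (starRingEnd ℂ) (a n) *
        ((r : ℂ) ^ (2 * n) * (iteratedDeriv n P 0 / (n.factorial : ℂ))) =
      ∑ n ∈ Finset.range N, (starRingEnd ℂ) (a n) * ((r : ℂ) ^ (2 * n) * a n) := by
    refine Finset.sum_congr rfl fun n hn => ?_
    rw [hP, coeff_poly a N (Finset.mem_range.1 hn)]
  rw [e3] at e2
  have c1 : CircleIntegrable (fun z => (starRingEnd ℂ) (P z) * g z) 0 r :=
    circInt h0 (hcP.continuousOn.mul hgc)
  have c2 : CircleIntegrable (fun z => (starRingEnd ℂ) (P z) * P z) 0 r :=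
    circInt h0 (hcP.continuousOn.mul hPc.continuousOn)
  have c3 : CircleIntegrable (fun z => (2 : ℂ) • ((starRingEnd ℂ) (P z) * g z) -
      (starRingEnd ℂ) (P z) * P z) 0 r :=
    circInt h0 (((hcP.continuousOn.mul hgc).const_smul (2 : ℂ)).sub
      (hcP.continuousOn.mul hPc.continuousOn))
  have e4 : circleAverage (fun z => (2 : ℂ) • ((starRingEnd ℂ) (P z) * g z) -
      (starRingEnd ℂ) (P z) * P z) 0 r =
      ∑ n ∈ Finset.range N, (starRingEnd ℂ) (a n) * ((r : ℂ) ^ (2 * n) * a n) := by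
    have c4 : CircleIntegrable (fun z => (2 : ℂ) • ((starRingEnd ℂ) (P z) * g z)) 0 r :=
      circInt h0 ((hcP.continuousOn.mul hgc).const_smul (2 : ℂ))
    rw [circleAverage_fun_sub c4 c2, circleAverage_fun_smul, e1, e2, smul_eq_mul]
    ring
  have e5 := ContinuousLinearMap.circleAverage_comp_comm Complex.reCLM c3
  rw [e4] at e5
  have e6 : Complex.reCLM (∑ n ∈ Finset.range N, (starRingEnd ℂ) (a n) *
      ((r : ℂ) ^ (2 * n) * a n)) = ∑ n ∈ Finset.range N, ‖a n‖ ^ 2 * r ^ (2 * n) := by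
    rw [map_sum]
    refine Finset.sum_congr rfl fun n _ => ?_
    have e7 : (starRingEnd ℂ) (a n) * ((r : ℂ) ^ (2 * n) * a n) =
        ((‖a n‖ ^ 2 * r ^ (2 * n) : ℝ) : ℂ) := by
      rw [Complex.ofReal_mul, Complex.ofReal_pow, Complex.ofReal_pow]
      rw [← Complex.conj_mul']
      ring
    rw [e7]
    simp only [Complex.reCLM_apply, Complex.ofReal_re]
  rw [e6] at e5
  rw [← e5]
  refine circleAverage_mono ?_ ?_ ?_
  · have hcont : ContinuousOn (Complex.reCLM ∘ fun z => (2 : ℂ) • ((starRingEnd ℂ) (P z) * g z) -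
      (starRingEnd ℂ) (P z) * P z) (sphere (0 : ℂ) r) :=
      Complex.reCLM.continuous.comp_continuousOn
        (((hcP.continuousOn.mul hgc).const_smul (2 : ℂ)).sub
          (hcP.continuousOn.mul hPc.continuousOn))
    exact hcont.circleIntegrable h0.le
  · exact ((hgc.norm).pow 2).circleIntegrable h0.le
  · intro z _
    simp only [Function.comp_apply, Complex.reCLM_apply, smul_eq_mul]
    have h2 : 0 ≤ Complex.normSq (g z - P z) := Complex.normSq_nonneg _
    have h3 : ‖g z‖ ^ 2 = Complex.normSq (g z) := (Complex.normSq_eq_norm_sq _).symm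
    rw [h3]
    simp only [Complex.normSq_apply, Complex.sub_re, Complex.sub_im, Complex.mul_re,
      Complex.mul_im, Complex.conj_re, Complex.conj_im, Complex.re_ofNat, Complex.im_ofNat] at h2 ⊢
    nlinarith

/-- An analytic function whose squared circle means are bounded has an `H^2` representative. -/
lemma exists_H2 {g : ℂ → ℂ} (hg : DifferentiableOn ℂ g (ball (0 : ℂ) 1)) {K : ℝ} (hK : 0 ≤ K)
    (hb : ∀ r : ℝ, 0 < r → r < 1 → circleAverage (fun z => ‖g z‖ ^ 2) 0 r ≤ K ^ 2) :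
    ∃ c : H2, ‖c‖ ≤ K ∧ ∀ z ∈ ball (0 : ℂ) 1, value c z = g z := by
  set a : ℕ → ℂ := fun n => iteratedDeriv n g 0 / (n.factorial : ℂ) with ha
  have h1 : ∀ N : ℕ, ∑ n ∈ Finset.range N, ‖a n‖ ^ 2 ≤ K ^ 2 := by
    intro N
    have hcont : Continuous fun r : ℝ => ∑ n ∈ Finset.range N, ‖a n‖ ^ 2 * r ^ (2 * n) := by
      fun_prop
    have ht : Tendsto (fun r : ℝ => ∑ n ∈ Finset.range N, ‖a n‖ ^ 2 * r ^ (2 * n)) (𝓝[<] 1)
        (𝓝 (∑ n ∈ Finset.range N, ‖a n‖ ^ 2 * (1 : ℝ) ^ (2 * n))) :=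
      (hcont.tendsto 1).mono_left nhdsWithin_le_nhds
    have h2 : ∑ n ∈ Finset.range N, ‖a n‖ ^ 2 * (1 : ℝ) ^ (2 * n) ≤ K ^ 2 := by
      refine le_of_tendsto ht ?_
      have hI : Set.Ioo (0 : ℝ) 1 ∈ 𝓝[<] (1 : ℝ) := Ioo_mem_nhdsLT one_pos
      filter_upwards [hI] with r hr
      exact (bessel hg hr.1 hr.2 N).trans (hb r hr.1 hr.2)
    simpa using h2
  have hs : Summable fun n => ‖a n‖ ^ 2 :=
    summable_of_sum_range_le (fun n => sq_nonneg _) h1
  refine ⟨⟨a, memlp_of hs⟩, ?_, fun z hz => ?_⟩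
  · refine abs_le_of_sq_le_sq' ?_ hK |>.2
    rw [normSq_eq]
    exact Real.tsum_le_of_sum_range_le (fun n => sq_nonneg _) h1
  · have h3 := Complex.hasSum_taylorSeries_on_ball hg hz
    have h4 : (fun n : ℕ => a n * z ^ n) =
        fun n : ℕ => ((n.factorial : ℂ))⁻¹ • (z - 0) ^ n • iteratedDeriv n g 0 := by
      funext n
      rw [ha, sub_zero, smul_eq_mul, smul_eq_mul]
      ring
    rw [← h4] at h3
    exact h3.tsum_eq

end Pool.Agent.Lib.MP_ffb813_an_h7
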