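import Pool.Agent.Lib.MP_ffb813_an_h7.Space

/-! A harmonic majorant of the squared modulus (MP_ffb813_an). -/

set_option autoImplicit false

namespace Pool.Agent.Lib.MP_ffb813_an_h7

open Filter Topology Metric

/-- The backward shift. -/
noncomputable def Bz : H2 →L[ℂ] H2 := ContinuousLinearMap.adjoint Mz

lemma Bz_apply (f : H2) (n : ℕ) : Bz f n = f (n + 1) := by
  rw [← inner_mono_left, Bz, ContinuousLinearMap.adjoint_inner_right, Mz_mono, inner_mono_left]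

lemma norm_Bz_le : ‖Bz‖ ≤ 1 := by
  unfold Bz
  rw [LinearIsometryEquiv.norm_map]
  exact MzI.norm_toContinuousLinearMap_le

lemma norm_smul_Bz_lt {w : ℂ} (hw : ‖w‖ < 1) : ‖w • Bz‖ < 1 := by
  rw [norm_smul]
  calc ‖w‖ * ‖Bz‖ ≤ ‖w‖ * 1 := mul_le_mul_of_nonneg_left norm_Bz_le (norm_nonneg _)
    _ < 1 := by rw [mul_one]; exact hw

lemma isUnit_one_sub {w : ℂ} (hw : ‖w‖ < 1) : IsUnit (1 - w • Bz) :=
  (Units.oneSub (w • Bz) (norm_smul_Bz_lt hw)).isUnit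

/-- The resolvent of the backward shift applied to `f`. -/
noncomputable def GG (f : H2) (w : ℂ) : H2 := (Ring.inverse (1 - w • Bz)) f

lemma GG_eq (f : H2) {w : ℂ} (hw : ‖w‖ < 1) : GG f w - w • Bz (GG f w) = f := by
  have h := Ring.mul_inverse_cancel _ (isUnit_one_sub hw)
  have h2 := congrArg (fun T : H2 →L[ℂ] H2 => T f) h
  simpa [GG] using h2

lemma value_eq_GG (f : H2) {w : ℂ} (hw : ‖w‖ < 1) : value f w = GG f w 0 := by
  have h1 := hasSum_value (GG f w) hw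
  have h2 : HasSum (fun n : ℕ => GG f w (n + 1) * w ^ (n + 1)) (value (GG f w) w - GG f w 0) := by
    rw [← hasSum_nat_add_iff' 1] at h1
    simpa using h1
  have h3 := h1.sub h2
  have h4 : (fun n : ℕ => GG f w n * w ^ n - GG f w (n + 1) * w ^ (n + 1)) =
      fun n : ℕ => f n * w ^ n := by
    funext n
    have h5 : f n = GG f w n - w * GG f w (n + 1) := by
      conv_lhs => rw [← GG_eq f hw]
      rw [lp.coeFn_sub, Pi.sub_apply, lp.coeFn_smul, Pi.smul_apply, Bz_apply, smul_eq_mul]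
    rw [h5]
    ring
  rw [h4] at h3
  have h6 := h3.tsum_eq
  rw [sub_sub_cancel] at h6
  exact h6

lemma norm_sq_split (G : H2) : ‖G‖ ^ 2 = ‖G 0‖ ^ 2 + ‖Bz G‖ ^ 2 := by
  rw [normSq_eq G, normSq_eq (Bz G), (summable_sq G).tsum_eq_zero_add]
  simp only [Bz_apply]

/-- The analytic function whose real part is the majorant. -/
noncomputable def FF (f : H2) (w : ℂ) : ℂ := 2 * inner ℂ f (GG f w) - (‖f‖ : ℂ) ^ 2

lemma re_FF (f : H2) {w : ℂ} (hw : ‖w‖ < 1) :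
    (FF f w).re = ‖GG f w‖ ^ 2 - ‖w‖ ^ 2 * ‖Bz (GG f w)‖ ^ 2 := by
  set G := GG f w with hG
  set H := w • Bz G with hH
  have hf : f = G - H := (GG_eq f hw).symm
  have hHn : ‖w‖ ^ 2 * ‖Bz G‖ ^ 2 = ‖H‖ ^ 2 := by
    rw [hH, norm_smul, mul_pow]
  have h1 : (inner ℂ f G : ℂ).re = ‖G‖ ^ 2 - (inner ℂ H G : ℂ).re := by
    rw [hf, inner_sub_left, Complex.sub_re, inner_self_eq_norm_sq_to_K]
    norm_cast
  have h2 : ‖f‖ ^ 2 = ‖G‖ ^ 2 - 2 * (inner ℂ H G : ℂ).re + ‖H‖ ^ 2 := by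
    have h3 := norm_sub_sq (𝕜 := ℂ) G H
    have h4 : RCLike.re (inner ℂ G H : ℂ) = (inner ℂ H G : ℂ).re := inner_re_symm (𝕜 := ℂ) G H
    rw [h4] at h3
    rw [hf]
    exact h3
  have h5 : (FF f w).re = 2 * (inner ℂ f G : ℂ).re - ‖f‖ ^ 2 := by
    unfold FF
    rw [Complex.sub_re]
    congr 1
    · simp [hG]
    · norm_cast
  rw [h5, h1, h2, hHn]
  ring

lemma normSq_value_le (f : H2) {w : ℂ} (hw : ‖w‖ < 1) : ‖value f w‖ ^ 2 ≤ (FF f w).re := by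
  rw [re_FF f hw, value_eq_GG f hw, norm_sq_split (GG f w)]
  have h1 : ‖w‖ ^ 2 ≤ 1 := by nlinarith [norm_nonneg w]
  nlinarith [sq_nonneg ‖Bz (GG f w)‖]

lemma re_FF_le (f : H2) {w : ℂ} (hw : ‖w‖ < 1) : (FF f w).re ≤ ((1 - ‖w‖)⁻¹ * ‖f‖) ^ 2 := by
  have h1 : ‖GG f w‖ ≤ (1 - ‖w‖)⁻¹ * ‖f‖ := by
    have h2 : ‖GG f w‖ ≤ ‖f‖ + ‖w‖ * ‖GG f w‖ := by
      calc ‖GG f w‖ = ‖(GG f w - w • Bz (GG f w)) + w • Bz (GG f w)‖ := by rw [sub_add_cancel]
        _ = ‖f + w • Bz (GG f w)‖ := by rw [GG_eq f hw]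
        _ ≤ ‖f‖ + ‖w • Bz (GG f w)‖ := norm_add_le _ _
        _ = ‖f‖ + ‖w‖ * ‖Bz (GG f w)‖ := by rw [norm_smul]
        _ ≤ ‖f‖ + ‖w‖ * ‖GG f w‖ := by
            have h3 : ‖Bz (GG f w)‖ ≤ 1 * ‖GG f w‖ := Bz.le_of_opNorm_le norm_Bz_le _
            rw [one_mul] at h3
            have := mul_le_mul_of_nonneg_left h3 (norm_nonneg w)
            linarith
    have h4 : 0 < 1 - ‖w‖ := by linarith
    rw [inv_mul_eq_div, le_div_iff₀ h4]
    linarith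
  rw [re_FF f hw]
  have h5 : ‖GG f w‖ ^ 2 ≤ ((1 - ‖w‖)⁻¹ * ‖f‖) ^ 2 := pow_le_pow_left₀ (norm_nonneg _) h1 2
  have h6 : 0 ≤ ‖w‖ ^ 2 * ‖Bz (GG f w)‖ ^ 2 := by positivity
  linarith

lemma differentiableOn_FF (f : H2) : DifferentiableOn ℂ (FF f) (ball (0 : ℂ) 1) := by
  intro w hw
  have hw' : ‖w‖ < 1 := by simpa using hw
  have h1 : DifferentiableAt ℂ (fun w : ℂ => (1 : H2 →L[ℂ] H2) - w • Bz) w := by fun_prop
  have h0 : DifferentiableAt ℂ (Ring.inverse : (H2 →L[ℂ] H2) → (H2 →L[ℂ] H2)) (1 - w • Bz) :=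
    differentiableAt_inverse (isUnit_one_sub hw')
  have h2' : DifferentiableAt ℂ ((Ring.inverse : (H2 →L[ℂ] H2) → (H2 →L[ℂ] H2)) ∘
      (fun w : ℂ => (1 : H2 →L[ℂ] H2) - w • Bz)) w := DifferentiableAt.comp w h0 h1
  have h2 : DifferentiableAt ℂ (fun w : ℂ => Ring.inverse ((1 : H2 →L[ℂ] H2) - w • Bz)) w := h2'
  have h3 : DifferentiableAt ℂ (fun w : ℂ => GG f w) w :=
    h2.clm_apply (differentiableAt_const f)
  have h4 : DifferentiableAt ℂ (fun w : ℂ => (innerSL ℂ f) (GG f w)) w :=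
    (innerSL ℂ f).differentiableAt.comp w h3
  have h5 : DifferentiableAt ℂ (FF f) w := by
    unfold FF
    simp only [innerSL_apply_apply] at h4
    exact (h4.const_mul 2).sub_const _
  exact h5.differentiableWithinAt

end Pool.Agent.Lib.MP_ffb813_an_h7
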