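import Mathlib

/-! The Hardy space of the disc as square summable Taylor coefficients (MP_ffb813_an). -/

set_option autoImplicit false

namespace Pool.Agent.Lib.MP_ffb813_an_h7

open Filter Topology Metric

/-- The Hardy space `H^2`: square summable sequences of Taylor coefficients. -/
abbrev H2 : Type := lp (fun _ : ℕ => ℂ) 2

/-- The value at `z` of the function with Taylor coefficients `f`. -/
noncomputable def value (f : H2) (z : ℂ) : ℂ := ∑' n : ℕ, f n * z ^ n

lemma summable_sq (f : H2) : Summable (fun n => ‖f n‖ ^ 2) := by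
  have h := (lp.memℓp f).summable (by norm_num)
  refine h.congr fun n => ?_
  rw [ENNReal.toReal_ofNat]
  exact_mod_cast (Real.rpow_natCast _ 2)

lemma memlp_of {a : ℕ → ℂ} (h : Summable (fun n => ‖a n‖ ^ 2)) : Memℓp a (2 : ENNReal) := by
  refine memℓp_gen ?_
  refine h.congr fun n => ?_
  rw [ENNReal.toReal_ofNat]
  exact_mod_cast (Real.rpow_natCast _ 2).symm

lemma normSq_eq (f : H2) : ‖f‖ ^ 2 = ∑' n, ‖f n‖ ^ 2 := by
  have h := lp.norm_rpow_eq_tsum (p := 2) (by norm_num) f
  rw [ENNReal.toReal_ofNat] at h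
  have h2 : ∀ x : ℝ, x ^ (2 : ℝ) = x ^ 2 := fun x => by exact_mod_cast Real.rpow_natCast x 2
  simpa [h2] using h

lemma norm_coeff_le (f : H2) (n : ℕ) : ‖f n‖ ≤ ‖f‖ := lp.norm_apply_le_norm (by norm_num) f n

lemma summable_value (f : H2) {z : ℂ} (hz : ‖z‖ < 1) : Summable (fun n : ℕ => f n * z ^ n) := by
  have hg : Summable (fun n : ℕ => ‖f‖ * ‖z‖ ^ n) :=
    (summable_geometric_of_lt_one (norm_nonneg _) hz).mul_left _
  refine Summable.of_norm_bounded hg fun n => ?_
  rw [norm_mul, norm_pow]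
  exact mul_le_mul_of_nonneg_right (norm_coeff_le f n) (by positivity)

lemma hasSum_value (f : H2) {z : ℂ} (hz : ‖z‖ < 1) :
    HasSum (fun n : ℕ => f n * z ^ n) (value f z) := (summable_value f hz).hasSum

lemma hasFPower (f : H2) :
    HasFPowerSeriesOnBall (value f) (FormalMultilinearSeries.ofScalars ℂ (fun n => f n)) 0 1 := by
  refine ⟨?_, one_pos, ?_⟩
  · refine FormalMultilinearSeries.le_radius_of_bound _ (r := 1) ‖f‖ fun n => ?_
    rw [FormalMultilinearSeries.ofScalars_norm]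
    simpa using norm_coeff_le f n
  · intro y hy
    have hy' : ‖y‖ < 1 := by
      rw [Metric.mem_eball, edist_zero_right] at hy
      rw [← ofReal_norm] at hy
      exact (ENNReal.ofReal_lt_one).1 hy
    have := hasSum_value f hy'
    rw [zero_add]
    have h2 : (fun n : ℕ => (FormalMultilinearSeries.ofScalars ℂ (fun n => f n)) n
        fun _ : Fin n => y) = fun n : ℕ => f n * y ^ n := by
      funext n
      rw [FormalMultilinearSeries.ofScalars_apply_eq, smul_eq_mul]
    rw [h2]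
    exact this

/-- The Taylor coefficients are determined by the values. -/
lemma coeff_eq (f : H2) {g : ℂ → ℂ} (hg : ∀ z ∈ ball (0 : ℂ) 1, value f z = g z) (n : ℕ) :
    f n = iteratedDeriv n g 0 / (n.factorial : ℂ) := by
  have h := (hasFPower f).factorial_smul (1 : ℂ) n
  rw [FormalMultilinearSeries.ofScalars_apply_eq, ← iteratedDeriv_eq_iteratedFDeriv] at h
  have he : value f =ᶠ[𝓝 0] g := by
    filter_upwards [ball_mem_nhds (0 : ℂ) one_pos] with z hz using hg z hz
  rw [← he.iteratedDeriv_eq n, ← h, nsmul_eq_mul, smul_eq_mul, one_pow, mul_one,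
    mul_div_cancel_left₀]
  exact_mod_cast n.factorial_ne_zero

lemma ext_value {f g : H2} (h : ∀ z ∈ ball (0 : ℂ) 1, value f z = value g z) : f = g := by
  ext n
  rw [coeff_eq f h n, coeff_eq g (fun z _ => rfl) n]

lemma differentiableOn_value (f : H2) : DifferentiableOn ℂ (value f) (ball (0 : ℂ) 1) := by
  have h := (hasFPower f).differentiableOn
  intro z hz
  have hz' : z ∈ Metric.eball (0 : ℂ) 1 := by
    rw [Metric.mem_eball, edist_zero_right, ← ofReal_norm]
    exact ENNReal.ofReal_lt_one.2 (by simpa using hz)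
  exact ((h z hz').differentiableAt (Metric.isOpen_eball.mem_nhds hz')).differentiableWithinAt

/-- The sequence shifted to the right. -/
def shiftR (a : ℕ → ℂ) (n : ℕ) : ℂ := if n = 0 then 0 else a (n - 1)

lemma hasSum_shiftR (f : H2) : HasSum (fun n => ‖shiftR f n‖ ^ 2) (‖f‖ ^ 2) := by
  rw [← hasSum_nat_add_iff' 1]
  simp only [Finset.sum_range_one, shiftR, if_true, norm_zero]
  have h := (summable_sq f).hasSum
  rw [← normSq_eq] at h
  simpa using h

/-- Multiplication by `z` (the unilateral shift) as a linear isometry of `H^2`. -/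
noncomputable def MzI : H2 →ₗᵢ[ℂ] H2 where
  toFun f := ⟨shiftR f, memlp_of (hasSum_shiftR f).summable⟩
  map_add' f g := by
    ext n
    simp only [lp.coeFn_add, Pi.add_apply, shiftR]
    split_ifs <;> simp
  map_smul' c f := by
    ext n
    simp only [lp.coeFn_smul, Pi.smul_apply, shiftR, RingHom.id_apply]
    split_ifs <;> simp
  norm_map' f := by
    have h : ‖(⟨shiftR f, memlp_of (hasSum_shiftR f).summable⟩ : H2)‖ ^ 2 = ‖f‖ ^ 2 := by
      rw [normSq_eq]
      exact (hasSum_shiftR f).tsum_eq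
    exact (pow_left_inj₀ (norm_nonneg _) (norm_nonneg _) two_ne_zero).1 h

/-- Multiplication by `z` (the unilateral shift) on `H^2`. -/
noncomputable def Mz : H2 →L[ℂ] H2 := MzI.toContinuousLinearMap

lemma Mz_zero (f : H2) : Mz f 0 = 0 := rfl
lemma Mz_succ (f : H2) (n : ℕ) : Mz f (n + 1) = f n := rfl

lemma value_Mz (f : H2) {z : ℂ} (hz : ‖z‖ < 1) : value (Mz f) z = z * value f z := by
  have h := (hasSum_value f hz).mul_left z
  have h2 : HasSum (fun n : ℕ => Mz f n * z ^ n) (z * value f z) := by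
    rw [← hasSum_nat_add_iff' 1]
    simp only [Finset.sum_range_one, Mz_zero, Mz_succ, zero_mul, sub_zero]
    have h3 : (fun n : ℕ => f n * z ^ (n + 1)) = fun n : ℕ => z * (f n * z ^ n) := by
      funext n
      ring
    rw [h3]
    exact h
  exact h2.tsum_eq

/-- The monomial `z ^ j`. -/
noncomputable def mono (j : ℕ) : H2 := lp.single 2 j (1 : ℂ)

lemma mono_apply (j n : ℕ) : mono j n = if n = j then 1 else 0 := by
  unfold mono
  rw [lp.single_apply, Pi.single_apply]

lemma value_mono (j : ℕ) (z : ℂ) : value (mono j) z = z ^ j := by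
  unfold value
  rw [tsum_eq_single j (fun n hn => by rw [mono_apply, if_neg hn, zero_mul]), mono_apply,
    if_pos rfl, one_mul]

lemma Mz_mono (j : ℕ) : Mz (mono j) = mono (j + 1) := by
  ext n
  rcases n with _ | n
  · rw [Mz_zero, mono_apply, if_neg (by omega)]
  · rw [Mz_succ, mono_apply, mono_apply]
    simp

lemma Mz_pow_mono (n j : ℕ) : (Mz ^ n) (mono j) = mono (n + j) := by
  induction n with
  | zero => simp
  | succ n ih =>
    rw [pow_succ', _root_.mul_apply_eq_comp, ih, Mz_mono]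
    congr 1
    omega

lemma inner_mono_left (k : ℕ) (f : H2) : inner ℂ (mono k) f = f k := by
  unfold mono
  rw [lp.inner_single_left]
  simp

/-- `C` is the composition operator with symbol `φ`: `(C f)(z) = f (φ z)` in the disc. -/
def IsComp (φ : ℂ → ℂ) (C : H2 →L[ℂ] H2) : Prop :=
  ∀ f : H2, ∀ z ∈ ball (0 : ℂ) 1, value (C f) z = value f (φ z)

lemma comp_entry {φ : ℂ → ℂ} {C : H2 →L[ℂ] H2} (h : IsComp φ C) (j k : ℕ) :
    (C (mono j)) k = iteratedDeriv k (fun z => φ z ^ j) 0 / (k.factorial : ℂ) := by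
  refine coeff_eq _ (fun z hz => ?_) k
  rw [h _ z hz, value_mono]

/-- The operators of the problem: `M_z^{*n} C M_z^n`. -/
noncomputable def AA (C : H2 →L[ℂ] H2) (n : ℕ) : H2 →L[ℂ] H2 :=
  (ContinuousLinearMap.adjoint Mz) ^ n * C * Mz ^ n

lemma inner_AA (C : H2 →L[ℂ] H2) (n : ℕ) (f g : H2) :
    inner ℂ g (AA C n f) = inner ℂ ((Mz ^ n) g) (C ((Mz ^ n) f)) := by
  have h : (ContinuousLinearMap.adjoint Mz) ^ n = ContinuousLinearMap.adjoint (Mz ^ n) := by
    rw [← ContinuousLinearMap.star_eq_adjoint, ← ContinuousLinearMap.star_eq_adjoint, star_pow]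
  unfold AA
  rw [h, _root_.mul_apply_eq_comp, _root_.mul_apply_eq_comp,
    ContinuousLinearMap.adjoint_inner_right]

lemma norm_Mz_pow (n : ℕ) (f : H2) : ‖(Mz ^ n) f‖ = ‖f‖ := by
  induction n with
  | zero => simp
  | succ n ih =>
    rw [pow_succ', _root_.mul_apply_eq_comp]
    exact (MzI.norm_map _).trans ih

lemma norm_inner_AA_le (C : H2 →L[ℂ] H2) (n : ℕ) (f g : H2) :
    ‖inner ℂ g (AA C n f)‖ ≤ ‖C‖ * ‖f‖ * ‖g‖ := by
  rw [inner_AA]
  calc ‖inner ℂ ((Mz ^ n) g) (C ((Mz ^ n) f))‖ ≤ ‖(Mz ^ n) g‖ * ‖C ((Mz ^ n) f)‖ :=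
        norm_inner_le_norm _ _
    _ ≤ ‖g‖ * (‖C‖ * ‖f‖) := by
        rw [norm_Mz_pow]
        refine mul_le_mul_of_nonneg_left ?_ (norm_nonneg _)
        calc ‖C ((Mz ^ n) f)‖ ≤ ‖C‖ * ‖(Mz ^ n) f‖ := C.le_opNorm _
          _ = ‖C‖ * ‖f‖ := by rw [norm_Mz_pow]
    _ = ‖C‖ * ‖f‖ * ‖g‖ := by ring

lemma closed_aux {T : ℕ → H2 → ℂ} {K : ℝ} (hK : 0 ≤ K)
    (hT : ∀ n x y, ‖T n x - T n y‖ ≤ K * ‖x - y‖) :
    IsClosed {x : H2 | Tendsto (fun n => T n x) atTop (𝓝 0)} := by
  rw [← closure_subset_iff_isClosed]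
  intro x hx
  rw [Metric.mem_closure_iff] at hx
  show Tendsto (fun n => T n x) atTop (𝓝 0)
  rw [Metric.tendsto_atTop]
  intro ε hε
  obtain ⟨y, hy, hxy⟩ := hx (ε / (2 * (K + 1))) (by positivity)
  have hy' : Tendsto (fun n => T n y) atTop (𝓝 0) := hy
  rw [Metric.tendsto_atTop] at hy'
  obtain ⟨N, hN⟩ := hy' (ε / 2) (by positivity)
  refine ⟨N, fun n hn => ?_⟩
  have h1 := hN n hn
  rw [dist_zero_right] at h1 ⊢
  rw [dist_eq_norm] at hxy
  have h2 := hT n x y
  have h3 : K * ‖x - y‖ ≤ ε / 2 := by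
    have h4 : K * ‖x - y‖ ≤ (K + 1) * (ε / (2 * (K + 1))) :=
      mul_le_mul (by linarith) hxy.le (norm_nonneg _) (by linarith)
    have h5 : (K + 1) * (ε / (2 * (K + 1))) = ε / 2 := by field_simp
    linarith
  calc ‖T n x‖ = ‖(T n x - T n y) + T n y‖ := by rw [sub_add_cancel]
    _ ≤ ‖T n x - T n y‖ + ‖T n y‖ := norm_add_le _ _
    _ < ε := by linarith

lemma mem_of_closed {S : Set H2} (hS : IsClosed S) (h0 : (0 : H2) ∈ S)
    (hadd : ∀ x ∈ S, ∀ y ∈ S, x + y ∈ S) (hsmul : ∀ (c : ℂ), ∀ x ∈ S, c • x ∈ S)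
    (hm : ∀ j, mono j ∈ S) (f : H2) : f ∈ S := by
  have h := lp.hasSum_single (p := 2) (by norm_num) f
  refine hS.mem_of_tendsto h (Filter.Eventually.of_forall fun s => ?_)
  classical
  refine Finset.sum_induction _ (fun x => x ∈ S) (fun a b ha hb => hadd a ha b hb) h0 ?_
  intro i _
  have : lp.single 2 i (f i) = f i • mono i := by
    unfold mono
    rw [← lp.single_smul, smul_eq_mul, mul_one]
  rw [this]
  exact hsmul _ _ (hm i)

/-- Convergence of all matrix entries gives weak convergence. -/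
lemma weak_of_entries {C : H2 →L[ℂ] H2}
    (h : ∀ j k : ℕ, Tendsto (fun n => (C (mono (n + j))) (n + k)) atTop (𝓝 0)) (f g : H2) :
    Tendsto (fun n => inner ℂ g (AA C n f)) atTop (𝓝 0) := by
  have h1 : ∀ k : ℕ, ∀ f : H2, Tendsto (fun n => inner ℂ (mono k) (AA C n f)) atTop (𝓝 0) := by
    intro k f
    refine mem_of_closed (S := {f | Tendsto (fun n => inner ℂ (mono k) (AA C n f)) atTop (𝓝 0)})
      (closed_aux (T := fun n f => inner ℂ (mono k) (AA C n f)) (K := ‖C‖ * ‖mono k‖)
        (by positivity) fun n x y => ?_) ?_ ?_ ?_ ?_ f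
    · rw [← inner_sub_right, ← map_sub]
      refine (norm_inner_AA_le C n (x - y) (mono k)).trans (le_of_eq (by ring))
    · simp
    · intro x hx y hy
      have := Tendsto.add hx hy
      simpa [inner_add_right] using this
    · intro c x hx
      have := Tendsto.const_mul c hx
      simpa [inner_smul_right] using this
    · intro j
      show Tendsto (fun n => inner ℂ (mono k) (AA C n (mono j))) atTop (𝓝 0)
      refine (h j k).congr fun n => ?_
      rw [inner_AA, Mz_pow_mono, Mz_pow_mono, inner_mono_left]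
  refine mem_of_closed (S := {g | Tendsto (fun n => inner ℂ g (AA C n f)) atTop (𝓝 0)})
      (closed_aux (T := fun n g => inner ℂ g (AA C n f)) (K := ‖C‖ * ‖f‖)
        (by positivity) fun n x y => ?_) ?_ ?_ ?_ ?_ g
  · rw [← inner_sub_left]
    exact norm_inner_AA_le C n f (x - y)
  · simp
  · intro x hx y hy
    have := Tendsto.add hx hy
    simpa [inner_add_left] using this
  · intro c x hx
    have := Tendsto.const_mul ((starRingEnd ℂ) c) hx
    simpa [inner_smul_left, mul_comm] using this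
  · intro k
    exact h1 k f

end Pool.Agent.Lib.MP_ffb813_an_h7
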